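import Mathlib

/-!
# Self-avoiding walks and polygons on the hypercubic lattice: definitions (MP_ff0a55_pr)

Walks and polygons are paths and cycles (`SimpleGraph.Walk.IsPath`, `SimpleGraph.Walk.IsCycle`) of the graph `ℤ^d` with
nearest-neighbour edges; polygons are counted up to translation.
-/

set_option autoImplicit false

open Filter Topology

namespace Pool.Agent.Lib.Pff0a55L

/-- The hypercubic lattice `ℤ^d` with nearest-neighbour edges. -/
def lattice (d : ℕ) : SimpleGraph (Fin d → ℤ) where
  Adj x y := ∑ i, |x i - y i| = 1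
  symm := ⟨fun x y h => by simpa only [abs_sub_comm] using h⟩
  loopless := ⟨fun x h => by simp at h⟩

/-- The translation `x ↦ x + a` of the lattice. -/
def shift {d : ℕ} (a : Fin d → ℤ) : lattice d →g lattice d where
  toFun x := x + a
  map_rel' {x y} h := by
    change ∑ i, |(x + a) i - (y + a) i| = 1
    simpa [lattice] using h

/-- The number of contacts of a walk or polygon, given as a subgraph `H` of the lattice: the unordered pairs of vertices
of `H` at unit distance which are not joined by an edge of `H`. -/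
noncomputable def contacts {d : ℕ} (H : (lattice d).Subgraph) : ℕ :=
  {e | e ∈ (lattice d).edgeSet ∧ (∀ v ∈ e, v ∈ H.verts) ∧ e ∉ H.edgeSet}.ncard

/-- The self-avoiding walks with `n` edges starting at the origin (a walk is given together with its end point). -/
def walks (d n : ℕ) : Set (Σ v : Fin d → ℤ, (lattice d).Walk 0 v) :=
  {w | w.2.IsPath ∧ w.2.length = n}

/-- The polygons with `n` edges: the subgraphs of the lattice which are cycles of length `n`. -/
def polygons (d n : ℕ) : Set (lattice d).Subgraph :=
  {H | ∃ (v : Fin d → ℤ) (c : (lattice d).Walk v v), c.IsCycle ∧ c.length = n ∧ c.toSubgraph = H}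

/-- The translation class of `H`: all translates of `H`. -/
def translates {d : ℕ} (H : (lattice d).Subgraph) : Set (lattice d).Subgraph :=
  {H' | ∃ a : Fin d → ℤ, H' = H.map (shift a)}

/-- `c_n(k)`: the number of self-avoiding walks with `n` edges, starting at the origin, with exactly `k` contacts. -/
noncomputable def walkCount (d n k : ℕ) : ℕ :=
  {w ∈ walks d n | contacts w.2.toSubgraph = k}.ncard

/-- `p_n(k)`: the number of polygons with `n` edges and exactly `k` contacts, counted up to translation. -/
noncomputable def polygonCount (d n k : ℕ) : ℕ :=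
  (translates '' {H ∈ polygons d n | contacts H = k}).ncard

/-- `Z_n(β) = ∑_k c_n(k) e^{βk}` -/
noncomputable def Z (d n : ℕ) (β : ℝ) : ℝ := ∑' k : ℕ, (walkCount d n k : ℝ) * Real.exp (β * k)

/-- `Z⁰_n(β) = ∑_k p_n(k) e^{βk}` -/
noncomputable def Z0 (d n : ℕ) (β : ℝ) : ℝ :=
  ∑' k : ℕ, (polygonCount d n k : ℝ) * Real.exp (β * k)

/-- `F_n(β) = n⁻¹ log Z_n(β)` -/
noncomputable def F (d n : ℕ) (β : ℝ) : ℝ := Real.log (Z d n β) / n

/-- `F⁰_n(β) = n⁻¹ log Z⁰_n(β)` -/
noncomputable def F0 (d n : ℕ) (β : ℝ) : ℝ := Real.log (Z0 d n β) / n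

/-- `K_n(β)`: the mean number of contacts of the `n`-edge walks under the weights `e^{βk}` -/
noncomputable def K (d n : ℕ) (β : ℝ) : ℝ :=
  (∑' k : ℕ, (k : ℝ) * (walkCount d n k : ℝ) * Real.exp (β * k)) / Z d n β

/-- `K⁰_n(β)`: the mean number of contacts of the `n`-edge polygons under the weights `e^{βk}` -/
noncomputable def K0 (d n : ℕ) (β : ℝ) : ℝ :=
  (∑' k : ℕ, (k : ℝ) * (polygonCount d n k : ℝ) * Real.exp (β * k)) / Z0 d n β

end Pool.Agent.Lib.Pff0a55L
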