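import Mathlib
import Pool.Agent.Lib.Pff0a55L.Defs
import Pool.Agent.Lib.Pff0a55.Steps

/-!
# Contacts of subgraphs of the lattice, and the partition function of the walks
-/

set_option autoImplicit false

open Finset Classical

namespace Pool.Agent.Lib.Pff0a55L

open Pool.Agent.Lib.Pff0a55 (E wt sawF polyF Zs Cs mem_sawF mem_polyF IsSAW IsPoly)

variable {d : ℕ}

lemma adj_iff {x y : Fin d → ℤ} : (lattice d).Adj x y ↔ Pff0a55.Adj x y := Iff.rfl

/-- the lattice edges inside a finite set of vertices -/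
lemma E_eq (V : Finset (Fin d → ℤ)) :
    {e | e ∈ (lattice d).edgeSet ∧ ∀ v ∈ e, v ∈ V}.Finite ∧
    E V = 2 * {e | e ∈ (lattice d).edgeSet ∧ ∀ v ∈ e, v ∈ V}.ncard := by
  set S := (V ×ˢ V).filter fun p => Pff0a55.Adj p.1 p.2 with hS
  set T := S.image (fun p => s(p.1, p.2)) with hT
  have h1 : {e | e ∈ (lattice d).edgeSet ∧ ∀ v ∈ e, v ∈ V} = (T : Set (Sym2 (Fin d → ℤ))) := by
    ext e
    induction e using Sym2.ind with
    | _ x y =>
      simp only [Set.mem_ofPred_eq, SimpleGraph.mem_edgeSet, Sym2.mem_iff, forall_eq_or_imp,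
        forall_eq, hT, hS, Finset.coe_image, Set.mem_image, Finset.mem_coe, Finset.mem_filter,
        Finset.mem_product, Prod.exists, Sym2.eq_iff]
      constructor
      · rintro ⟨h2, h3, h4⟩
        exact ⟨x, y, ⟨⟨h3, h4⟩, h2⟩, Or.inl ⟨rfl, rfl⟩⟩
      · rintro ⟨a, b, ⟨⟨h3, h4⟩, h2⟩, ⟨rfl, rfl⟩ | ⟨rfl, rfl⟩⟩
        · exact ⟨h2, h3, h4⟩
        · exact ⟨Pff0a55.Adj.symm h2, h4, h3⟩
  rw [h1]
  refine ⟨T.finite_toSet, ?_⟩
  rw [Set.ncard_coe_finset]
  have h2 : S.card = ∑ e ∈ T, (S.filter (fun p => s(p.1, p.2) = e)).card :=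
    Finset.card_eq_sum_card_fiberwise (fun p hp => Finset.mem_image_of_mem _ hp)
  have h3 : ∀ e ∈ T, (S.filter (fun p => s(p.1, p.2) = e)).card = 2 := by
    intro e he
    obtain ⟨⟨x, y⟩, hxy, rfl⟩ := Finset.mem_image.mp he
    have hxy' := hxy
    simp only [hS, Finset.mem_filter, Finset.mem_product] at hxy'
    have hne : x ≠ y := Pff0a55.Adj.ne hxy'.2
    have h4 : S.filter (fun p => s(p.1, p.2) = s(x, y)) = {(x, y), (y, x)} := by
      ext ⟨a, b⟩
      simp only [Finset.mem_filter, Sym2.eq_iff, Finset.mem_insert, Finset.mem_singleton,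
        Prod.mk.injEq]
      constructor
      · rintro ⟨_, h⟩; exact h
      · rintro (⟨rfl, rfl⟩ | ⟨rfl, rfl⟩)
        · exact ⟨hxy, Or.inl ⟨rfl, rfl⟩⟩
        · refine ⟨?_, Or.inr ⟨rfl, rfl⟩⟩
          simp only [hS, Finset.mem_filter, Finset.mem_product]
          exact ⟨⟨hxy'.1.2, hxy'.1.1⟩, Pff0a55.Adj.symm hxy'.2⟩
    rw [h4, Finset.card_insert_of_notMem (by simp [hne]), Finset.card_singleton]
  have h5 : E V = S.card := rfl
  rw [h5, h2, Finset.sum_congr rfl h3, Finset.sum_const, smul_eq_mul, mul_comm]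

lemma E_eq_contacts {H : (lattice d).Subgraph} {V : Finset (Fin d → ℤ)} (hV : H.verts = V)
    {m : ℕ} (hm : H.edgeSet.ncard = m) : E V = 2 * (contacts H + m) := by
  obtain ⟨hfin, hE⟩ := E_eq V
  rw [hE]
  congr 1
  have hsub : H.edgeSet ⊆ {e | e ∈ (lattice d).edgeSet ∧ ∀ v ∈ e, v ∈ V} := by
    intro e he
    refine ⟨H.edgeSet_subset he, fun v hv => ?_⟩
    have h1 := H.mem_verts_of_mem_edge he hv
    rw [hV] at h1
    exact h1
  have h2 : {e | e ∈ (lattice d).edgeSet ∧ (∀ v ∈ e, v ∈ H.verts) ∧ e ∉ H.edgeSet} =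
      {e | e ∈ (lattice d).edgeSet ∧ ∀ v ∈ e, v ∈ V} \ H.edgeSet := by
    ext e
    simp only [Set.mem_ofPred_eq, Set.mem_sdiff, hV, Finset.mem_coe]
    tauto
  unfold contacts
  rw [h2, ← hm]
  exact (Set.ncard_sdiff_add_ncard_of_subset hsub hfin).symm

lemma edgeSet_ncard {u v : Fin d → ℤ} (p : (lattice d).Walk u v) (hp : p.edges.Nodup) :
    p.toSubgraph.edgeSet.ncard = p.length := by
  have h1 : p.toSubgraph.edgeSet = (p.edges.toFinset : Set (Sym2 (Fin d → ℤ))) := by
    ext e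
    rw [SimpleGraph.Walk.mem_edges_toSubgraph]
    simp
  rw [h1, Set.ncard_coe_finset, List.toFinset_card_of_nodup hp, SimpleGraph.Walk.length_edges]

lemma verts_eq {u v : Fin d → ℤ} (p : (lattice d).Walk u v) :
    p.toSubgraph.verts = (p.support.toFinset : Set (Fin d → ℤ)) := by
  ext x
  rw [SimpleGraph.Walk.mem_verts_toSubgraph]
  simp

lemma exp_contacts_walk (β : ℝ) {n : ℕ} {v : Fin d → ℤ} {p : (lattice d).Walk 0 v}
    (hp : p.IsPath) (hn : p.length = n) :
    Real.exp (β * (contacts p.toSubgraph : ℝ)) = Real.exp β * wt β p.support.toFinset := by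
  have h1 := E_eq_contacts (verts_eq p) (edgeSet_ncard p hp.edges_nodup)
  have h2 : p.support.toFinset.card = n + 1 := by
    rw [List.toFinset_card_of_nodup hp.support_nodup, SimpleGraph.Walk.length_support, hn]
  unfold wt
  rw [h1, h2, ← Real.exp_add, hn]
  congr 1
  push_cast
  ring

/-- sums over the values of a function -/
lemma tsum_fiber {α : Type*} {S : Set α} (hS : S.Finite) (f : α → ℕ) (g : ℕ → ℝ) :
    ∑' k, (({w ∈ S | f w = k}.ncard : ℕ) : ℝ) * g k = ∑ w ∈ hS.toFinset, g (f w) := by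
  rw [Finset.sum_comp g f, tsum_eq_sum (s := hS.toFinset.image f)]
  · apply Finset.sum_congr rfl
    intro k _
    have h1 : {w ∈ S | f w = k} = (({w ∈ hS.toFinset | f w = k} : Finset α) : Set α) := by
      ext w; simp
    rw [h1, Set.ncard_coe_finset, nsmul_eq_mul]
  · intro k hk
    have h1 : {w ∈ S | f w = k} = ∅ := by
      ext w
      simp only [Set.mem_ofPred_eq, Set.mem_empty_iff_false, iff_false, not_and]
      rintro hw rfl
      exact hk (Finset.mem_image_of_mem f (hS.mem_toFinset.mpr hw))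
    rw [h1]
    simp

lemma support_mem_sawF {n : ℕ} {w : Σ v : Fin d → ℤ, (lattice d).Walk 0 v} (hw : w ∈ walks d n) :
    w.2.support ∈ sawF d n := by
  rw [mem_sawF]
  refine ⟨⟨hw.1.support_nodup, w.2.isChain_adj_support⟩, ?_, ?_⟩
  · rw [SimpleGraph.Walk.length_support, hw.2]
  · rw [← SimpleGraph.Walk.cons_tail_support]
    rfl

lemma support_injective : Function.Injective
    (fun w : Σ v : Fin d → ℤ, (lattice d).Walk 0 v => w.2.support) := by
  rintro ⟨v, p⟩ ⟨v', p'⟩ h
  simp only at h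
  have h1 : v = v' := by
    have h2 := p.getLast_support
    have h3 := p'.getLast_support
    rw [← h2, ← h3]
    congr 1
  subst h1
  rw [SimpleGraph.Walk.ext_support h]

lemma walks_finite (d n : ℕ) : (walks d n).Finite :=
  Set.Finite.of_finite_image ((sawF d n).finite_toSet.subset (by
    rintro _ ⟨w, hw, rfl⟩
    exact support_mem_sawF hw)) support_injective.injOn

lemma exists_walk {n : ℕ} {L : List (Fin d → ℤ)} (hL : L ∈ sawF d n) :
    ∃ w ∈ walks d n, w.2.support = L := by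
  rw [mem_sawF] at hL
  obtain ⟨⟨h1, h2⟩, h3, h4⟩ := hL
  have hne : L ≠ [] := by rintro rfl; simp at h4
  have h5 : L.head hne = 0 := by
    rw [List.head?_eq_some_head hne] at h4
    exact Option.some.inj h4
  have key : ∀ (u v : Fin d → ℤ) (p : (lattice d).Walk u v), u = 0 → p.support = L →
      ∃ w ∈ walks d n, w.2.support = L := by
    rintro u v p rfl hp
    refine ⟨⟨v, p⟩, ⟨SimpleGraph.Walk.IsPath.mk' (by rw [hp]; exact h1), ?_⟩, hp⟩
    have h6 := p.length_support
    rw [hp, h3] at h6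
    change p.length = n
    omega
  exact key _ _ (SimpleGraph.Walk.ofSupport (G := lattice d) L hne h2) h5
    (SimpleGraph.Walk.support_ofSupport hne h2)

theorem Z_eq (d n : ℕ) (β : ℝ) : Z d n β = Real.exp β * Zs d β n := by
  unfold Z walkCount
  rw [tsum_fiber (walks_finite d n) (fun w => contacts w.2.toSubgraph)
    (fun k => Real.exp (β * k))]
  unfold Zs
  rw [Finset.mul_sum]
  apply Finset.sum_bij (fun w _ => w.2.support)
  · intro w hw
    exact support_mem_sawF ((walks_finite d n).mem_toFinset.mp hw)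
  · intro w _ w' _ h
    exact support_injective h
  · intro L hL
    obtain ⟨w, hw, h⟩ := exists_walk hL
    exact ⟨w, (walks_finite d n).mem_toFinset.mpr hw, h⟩
  · intro w hw
    have h := (walks_finite d n).mem_toFinset.mp hw
    exact exp_contacts_walk β h.1 h.2

end Pool.Agent.Lib.Pff0a55L
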