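import Mathlib
import Pool.Agent.Lib.Pff0a55L.Count

/-!
# Polygons up to translation and rooted closed walks

The number of `n`-edge polygons up to translation, weighted by contacts, is up to a factor `2dn` the weighted number of closed
self-avoiding walks of length `n` from the origin.
-/

set_option autoImplicit false

open Finset Classical

namespace Pool.Agent.Lib.Pff0a55L

open Pool.Agent.Lib.Pff0a55 (E wt sawF polyF Zs Cs mem_sawF mem_polyF IsSAW IsPoly uvec)

variable {d : ℕ}

/-- The closed walks from the origin which are cycles of length `n`. -/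
def rooted (d n : ℕ) : Set ((lattice d).Walk 0 0) := {c | c.IsCycle ∧ c.length = n}

lemma support_eq_dropLast {v : Fin d → ℤ} (c : (lattice d).Walk v v) :
    c.support = c.support.dropLast ++ [v] := by
  have h := List.dropLast_append_getLast c.support_ne_nil
  rw [c.getLast_support] at h
  exact h.symm

lemma dropLast_cons {v : Fin d → ℤ} {c : (lattice d).Walk v v} (hc : c.IsCycle) :
    ∃ l, c.support.dropLast = v :: l := by
  cases c with
  | nil => exact absurd hc SimpleGraph.Walk.not_isCycle_nil
  | cons h p =>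
    rw [SimpleGraph.Walk.support_cons, List.dropLast_cons_of_ne_nil p.support_ne_nil]
    exact ⟨_, rfl⟩

lemma dropLast_length {v : Fin d → ℤ} (c : (lattice d).Walk v v) :
    c.support.dropLast.length = c.length := by
  rw [List.length_dropLast, SimpleGraph.Walk.length_support]
  rfl

lemma cycle_verts {v : Fin d → ℤ} {c : (lattice d).Walk v v} (hc : c.IsCycle) :
    c.toSubgraph.verts = (c.support.dropLast.toFinset : Set (Fin d → ℤ)) := by
  ext x
  rw [SimpleGraph.Walk.mem_verts_toSubgraph]
  obtain ⟨l, hl⟩ := dropLast_cons hc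
  have h := support_eq_dropLast c
  have h' : x ∈ c.support ↔ x ∈ c.support.dropLast ∨ x = v := by
    conv_lhs => rw [h]
    rw [List.mem_append, List.mem_singleton]
  rw [h', List.coe_toFinset, Set.mem_ofPred_eq]
  constructor
  · rintro (h1 | h1)
    · exact h1
    · rw [hl, h1]; exact List.mem_cons_self
  · exact Or.inl

lemma exp_contacts_cycle (β : ℝ) {v : Fin d → ℤ} {c : (lattice d).Walk v v} (hc : c.IsCycle) :
    Real.exp (β * (contacts c.toSubgraph : ℝ)) = wt β c.support.dropLast.toFinset := by
  have h1 := E_eq_contacts (cycle_verts hc) (edgeSet_ncard c hc.edges_nodup)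
  have h2 : c.support.dropLast.toFinset.card = c.length := by
    rw [List.toFinset_card_of_nodup hc.nodup_dropLast_support, dropLast_length]
  unfold wt
  rw [h1, h2]
  congr 1
  push_cast
  ring

lemma dropLast_mem_polyF {n : ℕ} {c : (lattice d).Walk 0 0} (hc : c ∈ rooted d n) :
    c.support.dropLast ∈ polyF d n := by
  obtain ⟨h1, h2⟩ := hc
  obtain ⟨l, hl⟩ := dropLast_cons h1
  rw [mem_polyF]
  have hch : (c.support.dropLast ++ [0]).IsChain Pff0a55.Adj := by
    rw [← support_eq_dropLast c]
    exact c.isChain_adj_support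
  rw [List.isChain_append] at hch
  refine ⟨⟨h1.nodup_dropLast_support, hch.1, ?_⟩, by rw [dropLast_length, h2], by rw [hl]; rfl⟩
  intro x hx y hy
  rw [hl] at hx
  have hx' : (0 : Fin d → ℤ) = x := by simpa using hx
  rw [← hx']
  exact hch.2.2 y hy 0 (by simp)

lemma dropLast_injective : Function.Injective
    (fun c : (lattice d).Walk 0 0 => c.support.dropLast) := by
  intro c c' h
  simp only at h
  apply SimpleGraph.Walk.ext_support
  rw [support_eq_dropLast c, support_eq_dropLast c', h]

lemma exists_rooted {n : ℕ} (hn : 3 ≤ n) {L : List (Fin d → ℤ)} (hL : L ∈ polyF d n) :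
    ∃ c ∈ rooted d n, c.support.dropLast = L := by
  rw [mem_polyF] at hL
  obtain ⟨⟨h1, h2, h3⟩, h4, h5⟩ := hL
  obtain ⟨l, rfl⟩ : ∃ l, L = 0 :: l := by
    cases L with
    | nil => simp at h5
    | cons a l =>
      refine ⟨l, ?_⟩
      have : a = 0 := by simpa using h5
      rw [this]
  have hch : (0 :: l ++ [0]).IsChain (lattice d).Adj := by
    have : (0 :: l ++ [0]).IsChain Pff0a55.Adj := by
      rw [List.isChain_append]
      refine ⟨h2, by simp, ?_⟩
      intro y hy x hx
      have hx' : (0 : Fin d → ℤ) = x := by simpa using hx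
      rw [← hx']
      exact h3 0 (by simp) y hy
    exact this
  have hne : (0 :: l ++ [0] : List (Fin d → ℤ)) ≠ [] := by simp
  have key : ∀ (u v : Fin d → ℤ) (p : (lattice d).Walk u v), u = 0 → v = 0 →
      p.support = 0 :: l ++ [0] → ∃ c ∈ rooted d n, c.support.dropLast = 0 :: l := by
    rintro u v p rfl rfl hp
    have hlen : p.length = n := by
      have h6 := p.length_support
      rw [hp, List.length_append, h4] at h6
      simp only [List.length_cons, List.length_nil] at h6
      omega
    have hnil : ¬ p.Nil := by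
      rw [SimpleGraph.Walk.not_nil_iff_lt_length, hlen]; omega
    refine ⟨p, ⟨?_, hlen⟩, ?_⟩
    · rw [SimpleGraph.Walk.isCycle_iff_isPath_tail_and_le_length]
      refine ⟨?_, by rw [hlen]; exact hn⟩
      rw [SimpleGraph.Walk.isPath_def, SimpleGraph.Walk.support_tail_of_not_nil _ hnil, hp]
      simp only [List.cons_append, List.tail_cons]
      rw [List.nodup_append]
      rw [List.nodup_cons] at h1
      refine ⟨h1.2, by simp, ?_⟩
      intro a ha b hb hab
      have hb' : b = 0 := by simpa using hb
      subst hab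
      rw [hb'] at ha
      exact h1.1 ha
    · rw [hp]; exact List.dropLast_concat
  refine key _ _ (SimpleGraph.Walk.ofSupport (G := lattice d) _ hne hch) ?_ ?_
    (SimpleGraph.Walk.support_ofSupport hne hch)
  · simp
  · simp

lemma rooted_finite (d n : ℕ) : (rooted d n).Finite :=
  Set.Finite.of_finite_image ((polyF d n).finite_toSet.subset (by
    rintro _ ⟨w, hw, rfl⟩
    exact dropLast_mem_polyF hw)) dropLast_injective.injOn

/-- the weight sum over rooted cycles -/
lemma Cs_eq {n : ℕ} (hn : 3 ≤ n) (β : ℝ) :
    ∑ c ∈ (rooted_finite d n).toFinset, Real.exp (β * (contacts c.toSubgraph : ℝ)) = Cs d β n := by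
  unfold Cs
  apply Finset.sum_bij (fun w _ => w.support.dropLast)
  · intro w hw
    exact dropLast_mem_polyF ((rooted_finite d n).mem_toFinset.mp hw)
  · intro w _ w' _ h
    exact dropLast_injective h
  · intro L hL
    obtain ⟨w, hw, h⟩ := exists_rooted hn hL
    exact ⟨w, (rooted_finite d n).mem_toFinset.mpr hw, h⟩
  · intro w hw
    exact exp_contacts_cycle β ((rooted_finite d n).mem_toFinset.mp hw).1

/-! ### translations -/

lemma shift_comp (a b : Fin d → ℤ) : (shift b).comp (shift a) = shift (a + b) := by
  ext x : 1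
  change x + a + b = x + (a + b)
  rw [add_assoc]

lemma shift_zero : shift (0 : Fin d → ℤ) = SimpleGraph.Hom.id := by
  ext x : 1
  change x + 0 = x
  rw [add_zero]

lemma map_shift_shift (H : (lattice d).Subgraph) (a b : Fin d → ℤ) :
    (H.map (shift a)).map (shift b) = H.map (shift (a + b)) := by
  rw [← SimpleGraph.Subgraph.map_comp, shift_comp]

lemma map_shift_zero (H : (lattice d).Subgraph) : H.map (shift 0) = H := by
  rw [shift_zero]
  exact SimpleGraph.Subgraph.map_id H

lemma translates_map (H : (lattice d).Subgraph) (a : Fin d → ℤ) :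
    translates (H.map (shift a)) = translates H := by
  ext H'
  constructor
  · rintro ⟨b, rfl⟩
    exact ⟨a + b, map_shift_shift _ _ _⟩
  · rintro ⟨b, rfl⟩
    refine ⟨-a + b, ?_⟩
    rw [map_shift_shift]
    congr 2
    abel

lemma shift_injective (a : Fin d → ℤ) : Function.Injective (shift a : (Fin d → ℤ) → _) := by
  intro x y h
  exact add_right_cancel h

lemma contacts_map (H : (lattice d).Subgraph) (a : Fin d → ℤ) :
    contacts (H.map (shift a)) = contacts H := by
  unfold contacts
  have h1 : {e | e ∈ (lattice d).edgeSet ∧ (∀ v ∈ e, v ∈ (H.map (shift a)).verts) ∧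
        e ∉ (H.map (shift a)).edgeSet} =
      Sym2.map (shift a) '' {e | e ∈ (lattice d).edgeSet ∧ (∀ v ∈ e, v ∈ H.verts) ∧
        e ∉ H.edgeSet} := by
    ext e
    constructor
    · rintro ⟨h2, h3, h4⟩
      induction e using Sym2.ind with
      | _ x y =>
        obtain ⟨x', hx', rfl⟩ := h3 x (by simp)
        obtain ⟨y', hy', rfl⟩ := h3 y (by simp)
        refine ⟨s(x', y'), ⟨?_, ?_, ?_⟩, rfl⟩
        · have h5 : ∑ i, |(x' + a) i - (y' + a) i| = 1 := h2
          change ∑ i, |x' i - y' i| = 1
          simpa using h5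
        · intro v hv
          rcases Sym2.mem_iff.mp hv with rfl | rfl
          · exact hx'
          · exact hy'
        · intro h5
          apply h4
          rw [SimpleGraph.Subgraph.edgeSet_map]
          exact ⟨s(x', y'), h5, rfl⟩
    · rintro ⟨e', ⟨h2, h3, h4⟩, rfl⟩
      refine ⟨(shift a).map_mem_edgeSet h2, ?_, ?_⟩
      · intro v hv
        obtain ⟨u, hu, rfl⟩ := Sym2.mem_map.mp hv
        exact ⟨u, h3 u hu, rfl⟩
      · rw [SimpleGraph.Subgraph.edgeSet_map]
        rintro ⟨e'', h5, h6⟩
        exact h4 (Sym2.map.injective (shift_injective a) h6 ▸ h5)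
  rw [h1, Set.ncard_image_of_injective _ (Sym2.map.injective (shift_injective a))]

lemma contacts_of_mem_translates {H H' : (lattice d).Subgraph}
    (h : translates H = translates H') : contacts H = contacts H' := by
  have h1 : H ∈ translates H' := by
    rw [← h]
    exact ⟨0, (map_shift_zero H).symm⟩
  obtain ⟨a, rfl⟩ := h1
  exact contacts_map _ _

/-- the number of contacts of a translation class -/
noncomputable def fC (C : Set (lattice d).Subgraph) : ℕ :=
  if h : ∃ H, translates H = C then contacts h.choose else 0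

lemma fC_translates (H : (lattice d).Subgraph) : fC (translates H) = contacts H := by
  have h : ∃ H', translates H' = translates H := ⟨H, rfl⟩
  unfold fC
  rw [dif_pos h]
  exact contacts_of_mem_translates h.choose_spec

/-- every polygon has a translate which is a cycle through the origin -/
lemma exists_rooted_of_polygon {n : ℕ} {H : (lattice d).Subgraph} (hH : H ∈ polygons d n) :
    ∃ c ∈ rooted d n, translates c.toSubgraph = translates H := by
  obtain ⟨v, c, h1, h2, rfl⟩ := hH
  have key : ∀ (u : Fin d → ℤ) (p : (lattice d).Walk u u), u = 0 → p.IsCycle → p.length = n →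
      p.toSubgraph = c.toSubgraph.map (shift (-v)) →
      ∃ c' ∈ rooted d n, translates c'.toSubgraph = translates c.toSubgraph := by
    rintro u p rfl h3 h4 h5
    exact ⟨p, ⟨h3, h4⟩, by rw [h5, translates_map]⟩
  refine key _ (c.map (shift (-v))) (add_neg_cancel v) ?_ ?_ (SimpleGraph.Walk.toSubgraph_map _ _)
  · exact (SimpleGraph.Walk.isCycle_map_iff_of_injective (shift_injective _)).mpr h1
  · rw [SimpleGraph.Walk.length_map, h2]

lemma rooted_polygon {n : ℕ} {c : (lattice d).Walk 0 0} (hc : c ∈ rooted d n) :
    c.toSubgraph ∈ polygons d n := ⟨0, c, hc.1, hc.2, rfl⟩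

lemma classes_eq (d n : ℕ) : translates '' polygons d n =
    (fun c => translates c.toSubgraph) '' rooted d n := by
  ext C
  constructor
  · rintro ⟨H, hH, rfl⟩
    exact exists_rooted_of_polygon hH
  · rintro ⟨c, hc, rfl⟩
    exact ⟨_, rooted_polygon hc, rfl⟩

lemma classes_finite (d n : ℕ) : (translates '' polygons d n).Finite := by
  rw [classes_eq]
  exact (rooted_finite d n).image _

lemma Z0_eq (d n : ℕ) (β : ℝ) :
    Z0 d n β = ∑ C ∈ (classes_finite d n).toFinset, Real.exp (β * (fC C : ℝ)) := by
  unfold Z0 polygonCount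
  rw [← tsum_fiber (classes_finite d n) fC (fun k => Real.exp (β * k))]
  congr 1
  funext k
  congr 3
  ext C
  constructor
  · rintro ⟨H, ⟨h1, h2⟩, rfl⟩
    exact ⟨⟨H, h1, rfl⟩, by rw [fC_translates, h2]⟩
  · rintro ⟨⟨H, h1, rfl⟩, h2⟩
    exact ⟨H, ⟨h1, by rw [← h2, fC_translates]⟩, rfl⟩

/-! ### cycles with the same edges -/

lemma cycle_ext {n : ℕ} {c c' : (lattice d).Walk 0 0} (hc : c ∈ rooted d n) (hc' : c' ∈ rooted d n)
    (hs : c.toSubgraph = c'.toSubgraph) (h1 : c.snd = c'.snd) : c = c' := by
  have hl : c.length = c'.length := by rw [hc.2, hc'.2]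
  apply SimpleGraph.Walk.ext_getVert_le_length hl
  intro k
  induction k using Nat.strong_induction_on with
  | _ k ih =>
    intro hk
    match k, ih, hk with
    | 0, _, _ => simp
    | 1, _, _ => exact h1
    | (i + 2), ih, hk =>
      have h2 := ih (i + 1) (by omega) (by omega)
      have h3 := ih i (by omega) (by omega)
      have h4 := hc.1.neighborSet_toSubgraph_internal (i := i + 1) (by omega) (by omega)
      have h5 := hc'.1.neighborSet_toSubgraph_internal (i := i + 1) (by omega) (by omega)
      have h6 := hc.1.getVert_sub_one_ne_getVert_add_one (i := i + 1) (by omega)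
      rw [hs, h2, h5] at h4
      have e1 : i + 1 - 1 = i := by omega
      have e2 : i + 1 + 1 = i + 2 := by omega
      rw [e1, e2] at h4 h6
      have h7 : c.getVert (i + 2) ∈ ({c'.getVert i, c'.getVert (i + 2)} : Set (Fin d → ℤ)) := by
        rw [h4]; simp
      rcases h7 with h7 | h7
      · exact absurd (h3.trans h7.symm) h6
      · exact h7

lemma fiber_card_le {n : ℕ} {c₀ : (lattice d).Walk 0 0} (h₀ : c₀ ∈ rooted d n) :
    ((rooted_finite d n).toFinset.filter
      (fun c => translates c.toSubgraph = translates c₀.toSubgraph)).card ≤ n * (2 * d) := by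
  set S := (rooted_finite d n).toFinset.filter
      (fun c => translates c.toSubgraph = translates c₀.toSubgraph) with hS
  have hmem : ∀ c ∈ S, c ∈ rooted d n ∧ ∃ a, c.toSubgraph = c₀.toSubgraph.map (shift a) := by
    intro c hc
    rw [hS, Finset.mem_filter] at hc
    refine ⟨(rooted_finite d n).mem_toFinset.mp hc.1, ?_⟩
    have h1 : c.toSubgraph ∈ translates c₀.toSubgraph := by
      rw [← hc.2]
      exact ⟨0, (map_shift_zero _).symm⟩
    exact h1
  have hsnd : ∀ c ∈ S, ∃ s : Fin d × Bool, c.snd = 0 + uvec s := by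
    intro c hc
    have h1 := (hmem c hc).1.1.not_nil
    exact Pff0a55.adj_iff_exists.mp (SimpleGraph.Walk.adj_snd h1)
  obtain ⟨s₀, -⟩ := hsnd c₀ (by
    rw [hS, Finset.mem_filter]
    exact ⟨(rooted_finite d n).mem_toFinset.mpr h₀, rfl⟩)
  haveI : Nonempty (Fin d × Bool) := ⟨s₀⟩
  choose! A hA using fun c hc => (hmem c hc).2
  choose! s hs using hsnd
  have hsub : S.card ≤ (c₀.support.dropLast.toFinset ×ˢ (Finset.univ : Finset (Fin d × Bool))).card := by
    apply Finset.card_le_card_of_injOn (fun c => (-A c, s c))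
    · intro c hc
      have hc' : c ∈ S := hc
      simp only [Finset.coe_product, Set.mem_prod, Finset.mem_coe, Finset.mem_univ, and_true]
      have h1 : (0 : Fin d → ℤ) ∈ c.toSubgraph.verts := c.start_mem_verts_toSubgraph
      rw [hA c hc'] at h1
      obtain ⟨x, hx, hx0⟩ := h1
      have hx1 : x + A c = 0 := hx0
      have hx2 : x = -A c := eq_neg_of_add_eq_zero_left hx1
      rw [← hx2]
      have h2 := cycle_verts h₀.1
      rw [h2] at hx
      exact hx
    · intro c hc c' hc' h
      simp only [Prod.mk.injEq, neg_inj] at h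
      apply cycle_ext (hmem c hc).1 (hmem c' hc').1
      · rw [hA c hc, hA c' hc', h.1]
      · rw [hs c hc, hs c' hc', h.2]
  have h2 : c₀.support.dropLast.toFinset.card = n := by
    rw [List.toFinset_card_of_nodup h₀.1.nodup_dropLast_support, dropLast_length, h₀.2]
  rw [Finset.card_product, h2] at hsub
  simpa [mul_comm] using hsub

/-- the partition function of the polygons and the one of the rooted closed walks -/
theorem Z0_bounds {n : ℕ} (hn : 3 ≤ n) (β : ℝ) :
    Z0 d n β ≤ Cs d β n ∧ Cs d β n ≤ (n * (2 * d) : ℕ) * Z0 d n β := by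
  rw [Z0_eq, ← Cs_eq hn]
  set R := (rooted_finite d n).toFinset with hR
  set T := (classes_finite d n).toFinset with hT
  have hmaps : ∀ c ∈ R, translates c.toSubgraph ∈ T := by
    intro c hc
    rw [hR, Set.Finite.mem_toFinset] at hc
    rw [hT, Set.Finite.mem_toFinset]
    exact ⟨_, rooted_polygon hc, rfl⟩
  have h1 : ∑ c ∈ R, Real.exp (β * (contacts c.toSubgraph : ℝ)) =
      ∑ C ∈ T, ((R.filter (fun c => translates c.toSubgraph = C)).card : ℝ) *
        Real.exp (β * (fC C : ℝ)) := by
    rw [← Finset.sum_fiberwise_of_maps_to hmaps]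
    apply Finset.sum_congr rfl
    intro C hC
    rw [← nsmul_eq_mul, ← Finset.sum_const]
    apply Finset.sum_congr rfl
    intro c hc
    rw [Finset.mem_filter] at hc
    rw [← hc.2, fC_translates]
  have h2 : ∀ C ∈ T, 1 ≤ (R.filter (fun c => translates c.toSubgraph = C)).card ∧
      (R.filter (fun c => translates c.toSubgraph = C)).card ≤ n * (2 * d) := by
    intro C hC
    rw [hT, Set.Finite.mem_toFinset, classes_eq] at hC
    obtain ⟨c₀, h₀, rfl⟩ := hC
    refine ⟨Finset.card_pos.mpr ⟨c₀, ?_⟩, fiber_card_le h₀⟩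
    rw [Finset.mem_filter, hR, Set.Finite.mem_toFinset]
    exact ⟨h₀, rfl⟩
  rw [h1, Finset.mul_sum]
  constructor
  · apply Finset.sum_le_sum
    intro C hC
    have h3 : (1 : ℝ) ≤ ((R.filter (fun c => translates c.toSubgraph = C)).card : ℝ) := by
      exact_mod_cast (h2 C hC).1
    exact le_mul_of_one_le_left (Real.exp_pos _).le h3
  · apply Finset.sum_le_sum
    intro C hC
    have h3 : ((R.filter (fun c => translates c.toSubgraph = C)).card : ℝ) ≤
        ((n * (2 * d) : ℕ) : ℝ) := by
      exact_mod_cast (h2 C hC).2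
    exact mul_le_mul_of_nonneg_right h3 (Real.exp_pos _).le

end Pool.Agent.Lib.Pff0a55L
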