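import Mathlib

/-!
# Limits of free energies and of their derivatives

`G n β` are free energies with the subgradient inequality `h k_n(β) ≤ G_n(β + h) - G_n(β)`, converging to `L`.
-/

set_option autoImplicit false

open Filter Topology Set

namespace Pool.Agent.Lib.Pff0a55L

/-- a convex function on `[0, ∞)` is differentiable at all but countably many points -/
lemma countable_not_differentiable {L : ℝ → ℝ} (hL : ConvexOn ℝ (Ici 0) L) :
    {x | 0 < x ∧ ¬ DifferentiableAt ℝ L x}.Countable := by
  set s := {x | 0 < x ∧ ¬ DifferentiableAt ℝ L x} with hs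
  have hint : ∀ x : ℝ, 0 < x → x ∈ interior (Ici (0:ℝ)) := by
    intro x hx
    rw [interior_Ici]
    exact hx
  have h1 : s.PairwiseDisjoint (fun x => Ioo (derivWithin L (Iio x) x) (derivWithin L (Ioi x) x)) := by
    have key : ∀ x ∈ s, ∀ y ∈ s, x < y →
        Disjoint (Ioo (derivWithin L (Iio x) x) (derivWithin L (Ioi x) x))
          (Ioo (derivWithin L (Iio y) y) (derivWithin L (Ioi y) y)) := by
      intro x hx y hy hxy
      rw [Set.disjoint_left]
      intro z hz hz'
      have h2 := hL.rightDeriv_le_slope_of_mem_interior (hint x hx.1) (le_of_lt hy.1 : (0:ℝ) ≤ y) hxy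
      have h3 := hL.slope_le_leftDeriv_of_mem_interior (le_of_lt hx.1 : (0:ℝ) ≤ x) (hint y hy.1) hxy
      have h4 := hz.2
      have h5 := hz'.1
      linarith
    intro x hx y hy hne
    rcases lt_or_gt_of_ne hne with h | h
    · exact key x hx y hy h
    · exact (key y hy x hx h).symm
  refine h1.countable_of_isOpen (fun _ _ => isOpen_Ioo) ?_
  intro x hx
  rw [nonempty_Ioo]
  refine lt_of_le_of_ne (hL.leftDeriv_le_rightDeriv_of_mem_interior (hint x hx.1)) ?_
  intro heq
  apply hx.2
  have h2 := hL.hasDerivWithinAt_rightDeriv_of_mem_interior (hint x hx.1)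
  have h3 := hL.hasDerivWithinAt_leftDeriv_of_mem_interior (hint x hx.1)
  rw [heq] at h3
  have h4 : HasDerivAt L (derivWithin L (Ioi x) x) x := by
    rw [hasDerivAt_iff_tendsto_slope_left_right]
    exact ⟨(hasDerivWithinAt_iff_tendsto_slope' self_notMem_Iio).mp h3,
      (hasDerivWithinAt_iff_tendsto_slope' self_notMem_Ioi).mp h2⟩
  exact h4.differentiableAt

/-- limits of functions with subgradients are convex -/
lemma convexOn_limit {G k : ℕ → ℝ → ℝ} {L : ℝ → ℝ}
    (hk : ∀ᶠ n in atTop, ∀ β h, h * k n β ≤ G n (β + h) - G n β)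
    (hG : ∀ β, 0 ≤ β → Tendsto (fun n => G n β) atTop (𝓝 (L β))) : ConvexOn ℝ (Ici 0) L := by
  refine ⟨convex_Ici 0, ?_⟩
  intro x hx y hy a b ha hb hab
  simp only [smul_eq_mul]
  have hz : 0 ≤ a * x + b * y :=
    add_nonneg (mul_nonneg ha hx) (mul_nonneg hb hy)
  have h1 := hG _ hz
  have h2 := ((hG x hx).const_mul a).add ((hG y hy).const_mul b)
  refine le_of_tendsto_of_tendsto h1 h2 ?_
  filter_upwards [hk] with n hn
  set z := a * x + b * y with hzdef
  have h3 := hn z (x - z)
  have h4 := hn z (y - z)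
  rw [add_sub_cancel] at h3 h4
  have h5 := mul_le_mul_of_nonneg_left h3 ha
  have h6 := mul_le_mul_of_nonneg_left h4 hb
  have h7 : a * ((x - z) * k n z) + b * ((y - z) * k n z) = 0 := by
    have : a * ((x - z) * k n z) + b * ((y - z) * k n z) =
        ((a * x + b * y) - (a + b) * z) * k n z := by ring
    rw [this, hab, ← hzdef]; ring
  have h8 : a * (G n x - G n z) + b * (G n y - G n z) =
      a * G n x + b * G n y - (a + b) * G n z := by ring
  rw [hab] at h8
  linarith

/-- convergence of the subgradients at points where the limit is differentiable -/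
lemma tendsto_subgradient {G k : ℕ → ℝ → ℝ} {L : ℝ → ℝ}
    (hk : ∀ᶠ n in atTop, ∀ β h, h * k n β ≤ G n (β + h) - G n β)
    (hG : ∀ β, 0 ≤ β → Tendsto (fun n => G n β) atTop (𝓝 (L β))) {β D : ℝ} (hβ : 0 < β)
    (hD : HasDerivAt L D β) : Tendsto (fun n => k n β) atTop (𝓝 D) := by
  rw [hasDerivAt_iff_tendsto_slope_left_right] at hD
  obtain ⟨hl, hr⟩ := hD
  have hslope : ∀ y, 0 ≤ y → Tendsto (fun n => slope (G n) β y) atTop (𝓝 (slope L β y)) := by
    intro y hy
    simp only [slope_def_field]
    exact ((hG y hy).sub (hG β hβ.le)).div_const _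
  rw [tendsto_order]
  constructor
  · intro a ha
    have h1 : ∀ᶠ y in 𝓝[<] β, a < slope L β y := (tendsto_order.mp hl).1 a ha
    have h2 : ∀ᶠ y in 𝓝[<] β, 0 < y := by
      filter_upwards [Ioo_mem_nhdsLT hβ] with y hy using hy.1
    have h3 : ∀ᶠ y in 𝓝[<] β, y < β := self_mem_nhdsWithin
    obtain ⟨y, hy1, hy2, hy3⟩ := (h1.and (h2.and h3)).exists
    filter_upwards [(tendsto_order.mp (hslope y hy2.le)).1 a hy1, hk] with n hn1 hn2
    have h4 := hn2 β (y - β)
    rw [add_sub_cancel] at h4
    have h5 : y - β < 0 := by linarith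
    refine lt_of_lt_of_le hn1 ?_
    rw [slope_def_field, div_le_iff_of_neg h5]
    linarith
  · intro a ha
    have h1 : ∀ᶠ y in 𝓝[>] β, slope L β y < a := (tendsto_order.mp hr).2 a ha
    have h3 : ∀ᶠ y in 𝓝[>] β, β < y := self_mem_nhdsWithin
    obtain ⟨y, hy1, hy3⟩ := (h1.and h3).exists
    filter_upwards [(tendsto_order.mp (hslope y (by linarith))).2 a hy1, hk] with n hn1 hn2
    have h4 := hn2 β (y - β)
    rw [add_sub_cancel] at h4
    have h5 : 0 < y - β := by linarith
    refine lt_of_le_of_lt ?_ hn1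
    rw [slope_def_field, le_div_iff₀ h5]
    linarith

/-- Jensen's inequality for the logarithm of a finite sum of exponentials -/
lemma log_sum_subgradient {α : Type*} (s : Finset α) (hs : s.Nonempty) (f : α → ℕ) (β h : ℝ) :
    h * ((∑ w ∈ s, (f w : ℝ) * Real.exp (β * f w)) / ∑ w ∈ s, Real.exp (β * f w)) ≤
      Real.log (∑ w ∈ s, Real.exp ((β + h) * f w)) - Real.log (∑ w ∈ s, Real.exp (β * f w)) := by
  set z := ∑ w ∈ s, Real.exp (β * f w) with hz
  have hzpos : 0 < z := Finset.sum_pos (fun _ _ => Real.exp_pos _) hs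
  set K := (∑ w ∈ s, (f w : ℝ) * Real.exp (β * f w)) / z with hK
  have hKz : K * z = ∑ w ∈ s, (f w : ℝ) * Real.exp (β * f w) := div_mul_cancel₀ _ hzpos.ne'
  have h1 : Real.exp (h * K) * z ≤ ∑ w ∈ s, Real.exp ((β + h) * f w) := by
    have h2 : ∀ w ∈ s, Real.exp (h * K) * ((1 - h * K) * Real.exp (β * f w) +
        h * ((f w : ℝ) * Real.exp (β * f w))) ≤ Real.exp ((β + h) * f w) := by
      intro w _
      have h3 := Real.add_one_le_exp (h * f w - h * K)
      have h4 : Real.exp ((β + h) * f w) =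
          Real.exp (h * K) * (Real.exp (h * f w - h * K) * Real.exp (β * f w)) := by
        rw [← Real.exp_add, ← Real.exp_add]
        congr 1
        ring
      rw [h4]
      apply mul_le_mul_of_nonneg_left _ (Real.exp_pos _).le
      have h5 := mul_le_mul_of_nonneg_right h3 (Real.exp_pos (β * f w)).le
      linarith
    have h6 := Finset.sum_le_sum h2
    rw [← Finset.mul_sum, Finset.sum_add_distrib, ← Finset.mul_sum, ← Finset.mul_sum, ← hKz,
      ← hz] at h6
    have h7 : (1 - h * K) * z + h * (K * z) = z := by ring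
    rwa [h7] at h6
  have h2 := Real.log_le_log (mul_pos (Real.exp_pos _) hzpos) h1
  rw [Real.log_mul (Real.exp_pos _).ne' hzpos.ne', Real.log_exp] at h2
  linarith

end Pool.Agent.Lib.Pff0a55L
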