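import Mathlib
import Pool.Agent.Lib.Pff0a55L.Poly
import Pool.Agent.Lib.Pff0a55L.Soft
import Pool.Agent.Lib.Pff0a55.Limit
import Pool.Agent.Lib.Pff0a55.Bridge

/-!
# Equality of the free energies of self-avoiding walks and polygons, in the literal form
-/

set_option autoImplicit false

open Filter Topology Classical

namespace Pool.Agent.Lib.Pff0a55L

open Pool.Agent.Lib.Pff0a55 (Zs Cs)

variable {d : ℕ}

lemma Z_sum (d n : ℕ) (β : ℝ) : Z d n β =
    ∑ w ∈ (walks_finite d n).toFinset, Real.exp (β * (contacts w.2.toSubgraph : ℝ)) :=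
  tsum_fiber (walks_finite d n) (fun w => contacts w.2.toSubgraph) (fun k => Real.exp (β * k))

lemma K_sum (d n : ℕ) (β : ℝ) : K d n β =
    (∑ w ∈ (walks_finite d n).toFinset, (contacts w.2.toSubgraph : ℝ) *
      Real.exp (β * (contacts w.2.toSubgraph : ℝ))) /
    ∑ w ∈ (walks_finite d n).toFinset, Real.exp (β * (contacts w.2.toSubgraph : ℝ)) := by
  unfold K
  rw [Z_sum]
  congr 1
  rw [← tsum_fiber (walks_finite d n) (fun w => contacts w.2.toSubgraph)
    (fun k => (k : ℝ) * Real.exp (β * k))]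
  congr 1
  funext k
  unfold walkCount
  ring

lemma polygonCount_eq (d n k : ℕ) :
    polygonCount d n k = {C ∈ translates '' polygons d n | fC C = k}.ncard := by
  unfold polygonCount
  congr 1
  ext C
  constructor
  · rintro ⟨H, ⟨h1, h2⟩, rfl⟩
    exact ⟨⟨H, h1, rfl⟩, by rw [fC_translates, h2]⟩
  · rintro ⟨⟨H, h1, rfl⟩, h2⟩
    exact ⟨H, ⟨h1, by rw [← h2, fC_translates]⟩, rfl⟩

lemma K0_sum (d n : ℕ) (β : ℝ) : K0 d n β =
    (∑ C ∈ (classes_finite d n).toFinset, (fC C : ℝ) * Real.exp (β * (fC C : ℝ))) /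
    ∑ C ∈ (classes_finite d n).toFinset, Real.exp (β * (fC C : ℝ)) := by
  unfold K0
  rw [Z0_eq]
  congr 1
  rw [← tsum_fiber (classes_finite d n) fC (fun k => (k : ℝ) * Real.exp (β * k))]
  congr 1
  funext k
  rw [polygonCount_eq]
  ring

lemma walks_nonempty (hd : 2 ≤ d) (n : ℕ) : (walks d n).Nonempty := by
  obtain ⟨l, -, hZ, -, -⟩ := Pff0a55.tendsto_log_Zs hd (le_refl (0:ℝ))
    (Pff0a55.closingStmt d (by omega))
  have h1 := hZ n
  unfold Zs at h1
  obtain ⟨L, hL⟩ : (Pff0a55.sawF d n).Nonempty := by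
    rw [Finset.nonempty_iff_ne_empty]
    intro h
    rw [h] at h1
    simp at h1
  obtain ⟨w, hw, -⟩ := exists_walk hL
  exact ⟨w, hw⟩

lemma polygons_nonempty (hd : 2 ≤ d) (m : ℕ) (hm : 2 ≤ m) : (polygons d (2 * m)).Nonempty := by
  obtain ⟨l, -, -, -, hC⟩ := Pff0a55.tendsto_log_Zs hd (le_refl (0:ℝ))
    (Pff0a55.closingStmt d (by omega))
  have h1 := hC m hm
  unfold Cs at h1
  obtain ⟨L, hL⟩ : (Pff0a55.polyF d (2 * m)).Nonempty := by
    rw [Finset.nonempty_iff_ne_empty]
    intro h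
    rw [h] at h1
    simp at h1
  obtain ⟨c, hc, -⟩ := exists_rooted (by omega) hL
  exact ⟨_, rooted_polygon hc⟩

lemma tendsto_F (hd : 2 ≤ d) {β : ℝ} (hβ : 0 ≤ β) : ∃ L : ℝ,
    Tendsto (fun n : ℕ => F d n β) atTop (𝓝 L) ∧
    Tendsto (fun m : ℕ => F0 d (2 * m) β) atTop (𝓝 L) := by
  obtain ⟨l, h1, hZ, h2, hC⟩ := Pff0a55.tendsto_log_Zs hd hβ (Pff0a55.closingStmt d (by omega))
  refine ⟨l / 2, ?_, ?_⟩
  · have h3 : Tendsto (fun n : ℕ => β * (1 / (n : ℝ)) + Real.log (Zs d β n) / n) atTop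
        (𝓝 (β * 0 + l / 2)) :=
      ((tendsto_one_div_atTop_nhds_zero_nat (𝕜 := ℝ)).const_mul β).add h1
    rw [mul_zero, zero_add] at h3
    apply h3.congr'
    filter_upwards [eventually_ge_atTop 1] with n hn
    have hn' : (n:ℝ) ≠ 0 := by positivity
    unfold F
    rw [Z_eq, Real.log_mul (Real.exp_pos _).ne' (hZ n).ne', Real.log_exp]
    field_simp
  · have hd0 : (0:ℝ) < d := by exact_mod_cast (by omega : 0 < d)
    have hlog : Tendsto (fun m : ℕ => Real.log ((2 * m * (2 * d) : ℝ)) / (2 * m : ℝ)) atTop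
        (𝓝 0) := by
      have h4 : Tendsto (fun x : ℝ => Real.log x / x) atTop (𝓝 0) := by
        simpa using (Real.isLittleO_log_id_atTop).tendsto_div_nhds_zero
      have h5 : Tendsto (fun m : ℕ => (2 * (m : ℝ)) * (2 * d)) atTop atTop := by
        apply Tendsto.atTop_mul_const (by positivity)
        apply Tendsto.const_mul_atTop (by norm_num)
        exact tendsto_natCast_atTop_atTop
      have h6 := (h4.comp h5).const_mul (2 * (d:ℝ))
      rw [mul_zero] at h6
      apply h6.congr'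
      filter_upwards [eventually_ge_atTop 1] with m hm
      have hm' : (m:ℝ) ≠ 0 := by positivity
      simp only [Function.comp_apply]
      field_simp
    have hup : Tendsto (fun m : ℕ => (Real.log (Cs d β (2 * m)) / m) / 2) atTop (𝓝 (l / 2)) :=
      h2.div_const 2
    have hlow : Tendsto (fun m : ℕ => (Real.log (Cs d β (2 * m)) / m) / 2 -
        Real.log ((2 * m * (2 * d) : ℝ)) / (2 * m : ℝ)) atTop (𝓝 (l / 2 - 0)) := hup.sub hlog
    rw [sub_zero] at hlow
    refine tendsto_of_tendsto_of_tendsto_of_le_of_le' hlow hup ?_ ?_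
    · filter_upwards [eventually_ge_atTop 2] with m hm
      have hm' : (0:ℝ) < m := by positivity
      obtain ⟨h5, h6⟩ := Z0_bounds (d := d) (n := 2 * m) (by omega) β
      have h7 := hC m hm
      have h8 : 0 < Z0 d (2 * m) β := by
        by_contra hcon
        push Not at hcon
        have : ((2 * m * (2 * d) : ℕ) : ℝ) * Z0 d (2 * m) β ≤ 0 :=
          mul_nonpos_of_nonneg_of_nonpos (by positivity) hcon
        linarith
      have h9 := Real.log_le_log h7 h6
      rw [Real.log_mul (by positivity) h8.ne'] at h9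
      push_cast at h9
      unfold F0
      push_cast
      rw [div_div, mul_comm (m:ℝ) 2, ← sub_div]
      exact div_le_div_of_nonneg_right (by linarith) (by positivity)
    · filter_upwards [eventually_ge_atTop 2] with m hm
      have hm' : (0:ℝ) < m := by positivity
      obtain ⟨h5, h6⟩ := Z0_bounds (d := d) (n := 2 * m) (by omega) β
      have h7 := hC m hm
      have h8 : 0 < Z0 d (2 * m) β := by
        by_contra hcon
        push Not at hcon
        have : ((2 * m * (2 * d) : ℕ) : ℝ) * Z0 d (2 * m) β ≤ 0 :=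
          mul_nonpos_of_nonneg_of_nonpos (by positivity) hcon
        linarith
      have h9 := Real.log_le_log h8 h5
      unfold F0
      push_cast
      rw [div_div, mul_comm (m:ℝ) 2]
      exact div_le_div_of_nonneg_right h9 (by positivity)

lemma subgradient_F (hd : 2 ≤ d) (n : ℕ) (hn : 1 ≤ n) (β h : ℝ) :
    h * (K d n β / n) ≤ F d n (β + h) - F d n β := by
  have h1 := log_sum_subgradient (walks_finite d n).toFinset
    (by
      obtain ⟨w, hw⟩ := walks_nonempty hd n
      exact ⟨w, (walks_finite d n).mem_toFinset.mpr hw⟩)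
    (fun w => contacts w.2.toSubgraph) β h
  simp only [← Z_sum] at h1
  have h2 : h * K d n β ≤ Real.log (Z d n (β + h)) - Real.log (Z d n β) := by
    have h3 := h1
    rw [Z_sum d n β, ← K_sum, ← Z_sum] at h3
    exact h3
  unfold F
  rw [← sub_div, ← mul_div_assoc]
  exact div_le_div_of_nonneg_right h2 (by positivity)

lemma subgradient_F0 (hd : 2 ≤ d) (m : ℕ) (hm : 2 ≤ m) (β h : ℝ) :
    h * (K0 d (2 * m) β / (2 * m : ℕ)) ≤ F0 d (2 * m) (β + h) - F0 d (2 * m) β := by
  have h1 := log_sum_subgradient (classes_finite d (2 * m)).toFinset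
    (by
      obtain ⟨w, hw⟩ := polygons_nonempty hd m hm
      exact ⟨translates w, (classes_finite d (2 * m)).mem_toFinset.mpr ⟨w, hw, rfl⟩⟩)
    fC β h
  rw [← K0_sum, ← Z0_eq, ← Z0_eq] at h1
  unfold F0
  rw [← sub_div, ← mul_div_assoc]
  exact div_le_div_of_nonneg_right h1 (by positivity)

theorem main (d : ℕ) (hd : 2 ≤ d) :
    (∀ n, (walks d n).Finite ∧ (walks d n).Nonempty ∧ (translates '' polygons d n).Finite) ∧
    (∀ m, 2 ≤ m → (polygons d (2 * m)).Nonempty) ∧
    ∃ L : ℝ → ℝ, ConvexOn ℝ (Set.Ici 0) L ∧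
      (∀ β : ℝ, 0 ≤ β → Tendsto (fun n : ℕ => F d n β) atTop (𝓝 (L β)) ∧
        Tendsto (fun m : ℕ => F0 d (2 * m) β) atTop (𝓝 (L β))) ∧
      (∀ β D : ℝ, 0 < β → HasDerivAt L D β →
        Tendsto (fun n : ℕ => K d n β / n) atTop (𝓝 D) ∧
        Tendsto (fun m : ℕ => K0 d (2 * m) β / (2 * m : ℕ)) atTop (𝓝 D)) ∧
      {β : ℝ | 0 < β ∧ ¬ DifferentiableAt ℝ L β}.Countable := by
  refine ⟨fun n => ⟨walks_finite d n, walks_nonempty hd n, classes_finite d n⟩,
    fun m hm => polygons_nonempty hd m hm, ?_⟩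
  have h0 : ∀ β : ℝ, 0 ≤ β → ∃ L : ℝ, Tendsto (fun n : ℕ => F d n β) atTop (𝓝 L) ∧
      Tendsto (fun m : ℕ => F0 d (2 * m) β) atTop (𝓝 L) := fun β hβ => tendsto_F hd hβ
  choose! L hL using h0
  have h1 : ∀ᶠ n : ℕ in atTop, ∀ β h, h * (K d n β / n) ≤ F d n (β + h) - F d n β := by
    filter_upwards [eventually_ge_atTop 1] with n hn
    exact subgradient_F hd n hn
  have h2 : ∀ᶠ m : ℕ in atTop, ∀ β h, h * (K0 d (2 * m) β / (2 * m : ℕ)) ≤
      F0 d (2 * m) (β + h) - F0 d (2 * m) β := by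
    filter_upwards [eventually_ge_atTop 2] with m hm
    exact subgradient_F0 hd m hm
  have hconv : ConvexOn ℝ (Set.Ici 0) L := convexOn_limit (G := fun n β => F d n β)
    (k := fun n β => K d n β / n) h1 (fun β hβ => (hL β hβ).1)
  refine ⟨L, hconv, hL, ?_, countable_not_differentiable hconv⟩
  intro β D hβ hD
  exact ⟨tendsto_subgradient (G := fun n β => F d n β) (k := fun n β => K d n β / n) h1
      (fun β hβ => (hL β hβ).1) hβ hD,
    tendsto_subgradient (G := fun m β => F0 d (2 * m) β)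
      (k := fun m β => K0 d (2 * m) β / (2 * m : ℕ)) h2 (fun β hβ => (hL β hβ).2) hβ hD⟩

end Pool.Agent.Lib.Pff0a55L
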